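import Pool.Agent.H207.BT.Stm6
import Pool.Agent.H356.BT207.REAL1

/-!
# Project BT: the real estimates in the recursion, with a bound for the number of steps
-/

set_option autoImplicit false

namespace Pool.Agent.H402.BT207

open Pool.Agent.H207.BT Pool.Agent.H356.BT207

theorem REAL1T_lam {B K₀ δ Y : ℝ} (hB : 1 ≤ B) (hK : 1 ≤ K₀) (hδ : 0 < δ)
    (h : (2 + K₀ * B) * δ ≤ Y) : 1 ≤ Real.log Y - Real.log δ := by
  have hKB : 1 ≤ K₀ * B := by nlinarith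
  have hY : 0 < Y := lt_of_lt_of_le (by positivity) h
  rw [← Real.log_div hY.ne' hδ.ne']
  have h1 : 3 ≤ Y / δ := by
    rw [le_div_iff₀ hδ]
    nlinarith
  rw [Real.le_log_iff_exp_le (by positivity)]
  have h2 := Real.exp_one_lt_d9
  linarith

/-- the first case -/
theorem REAL1T_case1 {c₀ L C μ β δ δ' P x : ℝ} {N m : ℕ} (hc₀ : 0 < c₀) (hL : 0 < L)
    (hμ : 1 < μ) (hμC : μ ≤ C) (hβ : 0 < β) (hβ1 : β ≤ 1 / 16)
    (hβC : β * Real.log C ≤ Real.log μ / 16) (hδ : 0 < δ) (hδ' : 0 < δ')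
    (hδ'1 : δ ^ (1 + β / 8) ≤ δ') (hP : 0 < P) (hPC : P ≤ C ^ N)
    (hx : x = δ' * P / L) (F1 : c₀ * μ ^ N ≤ x ^ m * P) (hEP : c₀ * L ≤ P ^ 2 * δ) :
    (N : ℝ) * Real.log μ ≤ 2 * ((Real.log (x ^ (m + 1)) - Real.log δ) +
      (|Real.log c₀| + |Real.log L| + |Real.log (c₀ * L)|)) := by
  have hμ0 : 0 < μ := by linarith
  have hx0 : 0 < x := by rw [hx]; positivity
  have h1 := REAL1_mu hμ hμC hβ hβC hδ hP hPC (mul_pos hc₀ hL) hEP
  have h2 := Real.log_le_log (Real.rpow_pos_of_pos (mul_pos hc₀ hL) _) h1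
  rw [Real.log_rpow (mul_pos hc₀ hL), Real.log_mul (by positivity)
    (Real.rpow_pos_of_pos hδ _).ne', Real.log_pow, Real.log_rpow hδ] at h2
  have hxe : x ^ (m + 1) = x ^ m * P * (δ' / L) := by
    have h3 : P * (δ' / L) = x := by rw [hx]; ring
    rw [mul_assoc, h3, pow_succ]
  have h4 : c₀ * μ ^ N * (δ' / L) ≤ x ^ (m + 1) := by
    rw [hxe]
    exact mul_le_mul_of_nonneg_right F1 (by positivity)
  have h5 := Real.log_le_log (by positivity) h4
  rw [Real.log_mul (by positivity) (by positivity), Real.log_mul hc₀.ne' (by positivity),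
    Real.log_pow, Real.log_div hδ'.ne' hL.ne'] at h5
  have h6 := Real.log_le_log (Real.rpow_pos_of_pos hδ _) hδ'1
  rw [Real.log_rpow hδ] at h6
  have h7 := neg_abs_le (Real.log c₀)
  have h8 := le_abs_self (Real.log L)
  have h9 : -|Real.log (c₀ * L)| ≤ β / 8 * Real.log (c₀ * L) := by
    have h10 := neg_abs_le (Real.log (c₀ * L))
    have h11 := abs_nonneg (Real.log (c₀ * L))
    have h12 : β / 8 * (-|Real.log (c₀ * L)|) ≤ β / 8 * Real.log (c₀ * L) :=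
      mul_le_mul_of_nonneg_left h10 (by positivity)
    nlinarith
  have h13 : 0 ≤ (N : ℝ) * Real.log μ := by
    have := Real.log_pos hμ
    positivity
  have h14 : β / 8 * Real.log (c₀ * L) - (N : ℝ) * Real.log μ / 64 ≤ β / 8 * Real.log δ := by
    linarith
  nlinarith

/-- the second case -/
theorem REAL1T_case2 {c μ B β δ δ' P x δ₁ : ℝ} {N m : ℕ} (hc : 0 < c) (hμ : 1 < μ) (hB : 0 < B)
    (hβ : 0 < β) (hβ1 : β ≤ 1 / 16) (hδ : 0 < δ) (hδ1 : δ ≤ 1) (hδ' : 0 < δ')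
    (hδ'1 : δ ^ (1 + β / 8) ≤ δ') (hP : 0 < P) (hR : δ' * P ≤ 1) (hx0 : 0 < x) (hx1 : x ≤ 1)
    (H : c * μ ^ (N + 1) ≤ B * x ^ m * P) :
    ((N : ℝ) + 1) * Real.log μ ≤ 2 * (Real.log δ₁ - Real.log δ) +
      (|Real.log c| + |Real.log B| + 2 * |Real.log δ₁|) := by
  have hμ0 : 0 < μ := by linarith
  have h1 : c * μ ^ (N + 1) ≤ B * P := by
    refine H.trans ?_
    have h2 : x ^ m ≤ 1 := pow_le_one₀ hx0.le hx1
    have h3 : B * x ^ m * P = x ^ m * (B * P) := by ring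
    rw [h3]
    have h4 : 0 ≤ B * P := by positivity
    nlinarith
  have h2 := Real.log_le_log (by positivity) h1
  rw [Real.log_mul hc.ne' (by positivity), Real.log_mul hB.ne' hP.ne', Real.log_pow] at h2
  have h3 : Real.log δ' + Real.log P ≤ 0 := by
    rw [← Real.log_mul hδ'.ne' hP.ne']
    exact Real.log_nonpos (by positivity) hR
  have h6 := Real.log_le_log (Real.rpow_pos_of_pos hδ _) hδ'1
  rw [Real.log_rpow hδ] at h6
  have h7 : Real.log δ ≤ 0 := Real.log_nonpos hδ.le hδ1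
  have h8 : 2 * Real.log δ ≤ (1 + β / 8) * Real.log δ := by nlinarith
  have h9 := neg_abs_le (Real.log c)
  have h10 := le_abs_self (Real.log B)
  have h11 := neg_abs_le (Real.log δ₁)
  push_cast at h2
  linarith

theorem t_REAL1T : Pool.Agent.H207.BT.S_REAL1T := by
  intro C c μ B K₀ β δ₁ M hc hμ hμC hB hK hβ hβC hδ₁ hδ₁1
  obtain ⟨δb, hδb0, hall⟩ := t_REAL1 C c μ B K₀ β δ₁ M hc hμ hμC hB hK hβ hβC hδ₁ hδ₁1
  have hB0 : 0 < B := by linarith
  have hK0 : 0 < K₀ := by linarith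
  have hμ0 : 0 < μ := by linarith
  have hlogμ : 0 < Real.log μ := Real.log_pos hμ
  have hlogC : Real.log μ ≤ Real.log C := Real.log_le_log hμ0 hμC
  have hβ1 : β ≤ 1 / 16 := by
    have h : β * Real.log C ≤ (1 / 16) * Real.log C := by linarith
    exact le_of_mul_le_mul_right h (by linarith)
  obtain ⟨L, hL⟩ : ∃ L, L = 2 * K₀ * B := ⟨_, rfl⟩
  have hL1 : 1 ≤ L := by rw [hL]; nlinarith
  have hL0 : 0 < L := by linarith
  obtain ⟨c₀, hc₀e⟩ : ∃ c₀, c₀ = c / B := ⟨_, rfl⟩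
  have hc₀ : 0 < c₀ := by rw [hc₀e]; exact div_pos hc hB0
  obtain ⟨D₁, hD₁⟩ : ∃ D₁, D₁ = |Real.log c₀| + |Real.log L| + |Real.log (c₀ * L)| := ⟨_, rfl⟩
  obtain ⟨D₂, hD₂⟩ : ∃ D₂, D₂ = |Real.log c| + |Real.log B| + 2 * |Real.log δ₁| := ⟨_, rfl⟩
  have hD₁0 : 0 ≤ D₁ := by rw [hD₁]; positivity
  have hD₂0 : 0 ≤ D₂ := by rw [hD₂]; positivity
  refine ⟨min δb 1, lt_min hδb0 one_pos, 1 + (2 + 2 * D₁ + (2 + D₂)) / Real.log μ, by positivity,
    ?_⟩
  intro δ δ' P N m hδ hδb hδ'1 hδ'2 hm hmM hP hPC hR H y hy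
  have hδ1 : δ ≤ 1 := (lt_of_lt_of_le hδb (min_le_right _ _)).le
  obtain ⟨hy0, hy1, hy2, hy3⟩ := hall δ δ' P N m hδ (lt_of_lt_of_le hδb (min_le_left _ _)) hδ'1
    hδ'2 hm hmM hP hPC hR H y hy
  refine ⟨hy0, hy1, hy2, ?_, hy3⟩
  have hym : 0 < y ^ (m + 1) := pow_pos hy0 _
  rw [Real.log_div hym.ne' hδ.ne']
  have hlam := REAL1T_lam hB hK hδ hy1
  have hδ' : 0 < δ' := lt_of_lt_of_le (Real.rpow_pos_of_pos hδ _) hδ'1
  rw [← hL] at H hy
  obtain ⟨x, hx⟩ : ∃ x, x = δ' * P / L := ⟨_, rfl⟩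
  rw [← hx] at H hy
  have hx0 : 0 < x := by rw [hx]; positivity
  have hx1 : x ≤ 1 := by
    rw [hx, div_le_one hL0]
    linarith
  obtain ⟨Λ, hΛ⟩ : ∃ Λ, Λ = Real.log (y ^ (m + 1)) - Real.log δ := ⟨_, rfl⟩
  rw [← hΛ] at hlam ⊢
  have w1 : Real.log μ ≤ Real.log μ * Λ := le_mul_of_one_le_right hlogμ.le hlam
  have w2 : D₁ ≤ D₁ * Λ := le_mul_of_one_le_right hD₁0 hlam
  have w3 : D₂ ≤ D₂ * Λ := le_mul_of_one_le_right hD₂0 hlam
  have w4 : (Real.log μ + (2 + 2 * D₁ + (2 + D₂))) * Λ =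
      Real.log μ * Λ + 4 * Λ + 2 * (D₁ * Λ) + D₂ * Λ := by ring
  have hmain : ((N : ℝ) + 1) * Real.log μ ≤
      (Real.log μ + (2 + 2 * D₁ + (2 + D₂))) * Λ := by
    rw [w4]
    rcases le_total x (δ₁ ^ ((1 : ℝ) / ((m : ℝ) + 1))) with hc1 | hc2
    · have hyx : y = x := by rw [hy, min_eq_left hc1]
      have hμN : 1 ≤ μ ^ N := one_le_pow₀ hμ.le
      have F1 : c₀ * μ ^ N ≤ x ^ m * P := by
        have h1 : c * μ ^ N ≤ c * μ ^ (N + 1) :=
          mul_le_mul_of_nonneg_left (pow_le_pow_right₀ hμ.le (Nat.le_succ N)) hc.le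
        have h2 : B * (c₀ * μ ^ N) ≤ B * (x ^ m * P) := by
          calc B * (c₀ * μ ^ N) = c * μ ^ N := by rw [hc₀e]; field_simp
            _ ≤ B * x ^ m * P := h1.trans H
            _ = B * (x ^ m * P) := by ring
        exact le_of_mul_le_mul_left h2 hB0
      have hEP : c₀ * L ≤ P ^ 2 * δ := by
        have g1 : c₀ * (δ' / L) ≤ x ^ (m + 1) := by
          have g2 : x ^ (m + 1) = x ^ m * P * (δ' / L) := by
            have hxe : P * (δ' / L) = x := by rw [hx]; ring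
            rw [mul_assoc, hxe, pow_succ]
          rw [g2]
          refine mul_le_mul_of_nonneg_right ?_ (by positivity)
          refine le_trans ?_ F1
          nlinarith
        have g3 : c₀ * (δ' / L) ≤ x ^ 2 :=
          g1.trans (pow_le_pow_of_le_one hx0.le hx1 (by omega))
        have g4 : x ^ 2 = P ^ 2 * δ' / L * (δ' / L) := by
          rw [hx]; ring
        rw [g4] at g3
        have g5 := le_of_mul_le_mul_right g3 (by positivity : 0 < δ' / L)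
        rw [le_div_iff₀ hL0] at g5
        exact g5.trans (mul_le_mul_of_nonneg_left hδ'2 (by positivity))
      have h := REAL1T_case1 (m := m) hc₀ hL0 hμ hμC hβ hβ1 hβC hδ hδ' hδ'1 hP hPC hx F1 hEP
      rw [← hyx, ← hΛ, ← hD₁] at h
      linarith
    · have hyx : y ^ (m + 1) = δ₁ := by
        rw [hy, min_eq_right hc2, ← Real.rpow_natCast, ← Real.rpow_mul hδ₁.le]
        have : (1 : ℝ) / ((m : ℝ) + 1) * ((m + 1 : ℕ) : ℝ) = 1 := by
          push_cast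
          field_simp
        rw [this, Real.rpow_one]
      have h := REAL1T_case2 (m := m) (δ₁ := δ₁) hc hμ hB0 hβ hβ1 hδ hδ1 hδ' hδ'1 hP hR hx0 hx1 H
      rw [← hyx, ← hΛ, hyx, ← hD₂] at h
      linarith
  have h2 : 1 + (2 + 2 * D₁ + (2 + D₂)) / Real.log μ =
      (Real.log μ + (2 + 2 * D₁ + (2 + D₂))) / Real.log μ := by
    field_simp
  rw [h2, div_mul_eq_mul_div, le_div_iff₀ hlogμ]
  exact hmain

end Pool.Agent.H402.BT207
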